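import Pool.Agent.Helper93.HH.Defs
import Pool.Agent.Helper83.OP.Mader

/-!
# HH-QQ: few threads between two hubs
-/

open Set
open Pool.Agent.Helper83.OP
open Pool.Agent.Helper93.HH

namespace Pool.Agent.Helper70.HH

/-- a large set without conflicts -/
theorem exists_indep {Q : Type} [Finite Q] (S : Set Q) (C : Q → Q → Prop) (L : ℕ)
    (hL : ∀ q ∈ S, {q' | q' ∈ S ∧ C q q'}.ncard ≤ L) :
    ∃ I : Set Q, I ⊆ S ∧ (∀ q ∈ I, ∀ q' ∈ I, q ≠ q' → ¬ C q q' ∨ ¬ C q' q) ∧
      S.ncard ≤ (L + 1) * I.ncard := by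
  classical
  have := Fintype.ofFinite Q
  let P : Finset Q → Prop := fun I => (I : Set Q) ⊆ S ∧
    ∀ q ∈ I, ∀ q' ∈ I, q ≠ q' → ¬ C q q' ∨ ¬ C q' q
  have hne : ((Finset.univ : Finset (Finset Q)).filter P).Nonempty := by
    refine ⟨∅, ?_⟩
    simp [P]
  obtain ⟨I, hI, hmax⟩ := Finset.exists_max_image _ Finset.card hne
  have hI' : P I := (Finset.mem_filter.1 hI).2
  refine ⟨I, hI'.1, hI'.2, ?_⟩
  have hcov : S.toFinset ⊆ I.biUnion fun q => insert q ({q' | q' ∈ S ∧ C q q'} : Set Q).toFinset := by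
    intro q' hq'
    rw [Set.mem_toFinset] at hq'
    rw [Finset.mem_biUnion]
    by_contra hcon
    push Not at hcon
    have hn : q' ∉ I := fun h => hcon q' h (Finset.mem_insert_self _ _)
    have hC : ∀ q ∈ I, ¬ C q q' := by
      intro q hq hCq
      refine hcon q hq (Finset.mem_insert_of_mem ?_)
      rw [Set.mem_toFinset]
      exact ⟨hq', hCq⟩
    have hP : P (insert q' I) := by
      refine ⟨?_, ?_⟩
      · intro z hz
        rw [Finset.mem_coe, Finset.mem_insert] at hz
        rcases hz with rfl | hz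
        · exact hq'
        · exact hI'.1 hz
      · intro a ha b hb hab
        rw [Finset.mem_insert] at ha hb
        rcases ha with rfl | ha <;> rcases hb with rfl | hb
        · exact absurd rfl hab
        · exact Or.inr (hC b hb)
        · exact Or.inl (hC a ha)
        · exact hI'.2 a ha b hb hab
    have h1 := hmax (insert q' I) (Finset.mem_filter.2 ⟨Finset.mem_univ _, hP⟩)
    rw [Finset.card_insert_of_notMem hn] at h1
    omega
  have h2 := (Finset.card_le_card hcov).trans (Finset.card_biUnion_le_card_mul _ _ (L + 1) (by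
    intro q hq
    refine (Finset.card_insert_le _ _).trans ?_
    have h3 := hL q (hI'.1 hq)
    rw [Set.ncard_eq_toFinset_card'] at h3
    omega))
  rw [Set.ncard_eq_toFinset_card', Set.ncard_coe_finset, Nat.mul_comm]
  exact h2

section

variable {V P Q : Type} [Finite V] {D : HD V P Q} {K : ℕ}

/-- an edge is on at most one thread between two hubs -/
theorem edge_one (hD : D.Ok) (hN : D.NoPl K) {q q' : Q} {f : Sym2 V} (h : f ∈ (D.wq q).edges)
    (h' : f ∈ (D.wq q').edges) : q = q' := by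
  induction f with
  | h a b =>
    have hab : a ≠ b := ((D.wq q).adj_of_mem_edges h).ne
    have ha := (D.wq q).fst_mem_support_of_mem_edges h
    have hb := (D.wq q).snd_mem_support_of_mem_edges h
    have ha' := (D.wq q').fst_mem_support_of_mem_edges h'
    have hb' := (D.wq q').snd_mem_support_of_mem_edges h'
    by_cases hU : a ∈ D.U
    · by_cases hU' : b ∈ D.U
      · have e1 : a = D.ha q ∨ a = D.hb q := by
          by_contra hcon
          push Not at hcon
          exact hD.wq_U q a ha hcon.1 hcon.2 hU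
        have e2 : b = D.ha q ∨ b = D.hb q := by
          by_contra hcon
          push Not at hcon
          exact hD.wq_U q b hb hcon.1 hcon.2 hU'
        have e3 : a = D.ha q' ∨ a = D.hb q' := by
          by_contra hcon
          push Not at hcon
          exact hD.wq_U q' a ha' hcon.1 hcon.2 hU
        have e4 : b = D.ha q' ∨ b = D.hb q' := by
          by_contra hcon
          push Not at hcon
          exact hD.wq_U q' b hb' hcon.1 hcon.2 hU'
        by_contra hne
        obtain ⟨h1, h2⟩ := hN.hh q q' hne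
        rcases e1 with e1 | e1 <;> rcases e2 with e2 | e2 <;> rcases e3 with e3 | e3 <;>
          rcases e4 with e4 | e4
        all_goals first
          | exact hab (e1.trans e2.symm)
          | exact hab (e3.trans e4.symm)
          | exact h1 ⟨e1.symm.trans e3, e2.symm.trans e4⟩
          | exact h1 ⟨e2.symm.trans e4, e1.symm.trans e3⟩
          | exact h2 ⟨e1.symm.trans e3, e2.symm.trans e4⟩
          | exact h2 ⟨e2.symm.trans e4, e1.symm.trans e3⟩
      · exact hD.wq_disj q q' b hb hb' hU'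
    · exact hD.wq_disj q q' a ha ha' hU

end

theorem QQ : ∃ A : ℕ, ∀ (V P Q : Type) [Finite V] [Finite P] [Finite Q]
    (D : HD V P Q) (K : ℕ) (H : SimpleGraph V) (e0 : Sym2 V) (X : Sym2 V → Sym2 V → Prop),
    D.Ok → D.NoPl K → D.Dr H e0 X → D.U.Nonempty → Nat.card Q ≤ A * D.L * D.U.ncard := by
  classical
  refine ⟨9, ?_⟩
  intro V P Q _ _ _ D K H e0 X hD hN hX hU
  -- the threads without `e0`
  let S : Set Q := {q | e0 ∉ (D.wq q).edges}
  have hSc : Sᶜ.ncard ≤ 1 := by
    rw [Set.ncard_le_one (Set.toFinite _)]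
    intro a ha b hb
    have ha' : e0 ∈ (D.wq a).edges := not_not.1 ha
    have hb' : e0 ∈ (D.wq b).edges := not_not.1 hb
    exact edge_one hD hN ha' hb'
  have hSum : S.ncard + Sᶜ.ncard = Nat.card Q := Set.ncard_add_ncard_compl S
  have hH : ∀ q ∈ S, ∀ f ∈ (D.wq q).edges, f ∈ H.edgeSet := by
    intro q hq f hf
    rw [hX.eq, SimpleGraph.edgeSet_deleteEdges]
    refine ⟨(D.wq q).edges_subset_edgeSet hf, ?_⟩
    rw [Set.mem_singleton_iff]
    rintro rfl
    exact hq hf
  -- conflicts
  let C : Q → Q → Prop := fun q q' => ∃ f ∈ (D.wq q).edges, ∃ f' ∈ (D.wq q').edges, X f f'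
  have hC : ∀ q ∈ S, {q' | q' ∈ S ∧ C q q'}.ncard ≤ D.L := by
    intro q hq
    have hex : ∀ q' : Q, ∃ f : Sym2 V, q' ∈ S ∧ C q q' →
        f ∈ (D.wq q).edges ∧ ∃ f' ∈ (D.wq q').edges, X f f' := by
      intro q'
      by_cases h : q' ∈ S ∧ C q q'
      · obtain ⟨h1, f, hf, h2⟩ := h
        exact ⟨f, fun _ => ⟨hf, h2⟩⟩
      · exact ⟨e0, fun h' => absurd h' h⟩
    choose φ hφ using hex
    have h1 : {q' | q' ∈ S ∧ C q q'}.ncard ≤ ((D.wq q).edges.toFinset : Set (Sym2 V)).ncard := by
      refine Set.ncard_le_ncard_of_injOn φ ?_ ?_ (Set.toFinite _)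
      · intro q' hq'
        rw [Finset.mem_coe, List.mem_toFinset]
        exact (hφ q' hq').1
      · intro a ha b hb hab
        obtain ⟨ha1, fa, ha2, ha3⟩ := hφ a ha
        obtain ⟨hb1, fb, hb2, hb3⟩ := hφ b hb
        rw [← hab] at hb3
        have h2 := hX.one (φ a) (hH q hq _ ha1)
        rw [Set.ncard_le_one (Set.toFinite _)] at h2
        have h3 := h2 fa ⟨hH a ha.1 _ ha2, ha3⟩ fb ⟨hH b hb.1 _ hb2, hb3⟩
        rw [← h3] at hb2
        exact edge_one hD hN ha2 hb2
    refine h1.trans ?_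
    rw [Set.ncard_coe_finset]
    refine (List.toFinset_card_le _).trans ?_
    rw [SimpleGraph.Walk.length_edges]
    exact hD.wq_le q
  obtain ⟨I, hIS, hI, hcard⟩ := exists_indep S C D.L hC
  have hI' : ∀ q ∈ I, ∀ q' ∈ I, q ≠ q' → ¬ C q q' := by
    intro q hq q' hq' hne
    rcases hI q hq q' hq' hne with h | h
    · exact h
    · rintro ⟨f, hf, f', hf', hx⟩
      exact h ⟨f', hf', f, hf, hX.sym _ _ hx⟩
  -- the links
  let Γ : SimpleGraph V :=
    { Adj := fun s t => ∃ q ∈ I, (s = D.ha q ∧ t = D.hb q) ∨ (s = D.hb q ∧ t = D.ha q)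
      symm := ⟨by
        rintro s t ⟨q, hq, h | h⟩
        · exact ⟨q, hq, Or.inr ⟨h.2, h.1⟩⟩
        · exact ⟨q, hq, Or.inl ⟨h.2, h.1⟩⟩⟩
      loopless := ⟨by
        rintro s ⟨q, hq, h | h⟩
        · exact hD.q_ne q (h.1.symm.trans h.2)
        · exact hD.q_ne q (h.2.symm.trans h.1)⟩ }
  have hR : ∀ s t, Γ.Adj s t → ∃ q ∈ I, ∃ W : H.Walk s t,
      (∀ v ∈ W.support, v ∈ (D.wq q).support) ∧ (∀ f ∈ W.edges, f ∈ (D.wq q).edges) ∧
      ((s = D.ha q ∧ t = D.hb q) ∨ (s = D.hb q ∧ t = D.ha q)) := by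
    rintro s t ⟨q, hq, ⟨rfl, rfl⟩ | ⟨rfl, rfl⟩⟩
    · refine ⟨q, hq, (D.wq q).transfer H (hH q (hIS hq)), ?_, ?_, Or.inl ⟨rfl, rfl⟩⟩
      · intro v hv
        rwa [SimpleGraph.Walk.support_transfer] at hv
      · intro f hf
        rwa [SimpleGraph.Walk.edges_transfer] at hf
    · refine ⟨q, hq, ((D.wq q).transfer H (hH q (hIS hq))).reverse, ?_, ?_, Or.inr ⟨rfl, rfl⟩⟩
      · intro v hv
        rwa [SimpleGraph.Walk.support_reverse, List.mem_reverse,
          SimpleGraph.Walk.support_transfer] at hv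
      · intro f hf
        rwa [SimpleGraph.Walk.edges_reverse, List.mem_reverse,
          SimpleGraph.Walk.edges_transfer] at hf
  choose ρ hρI W hW1 hW2 hW3 using hR
  have hpl := hX.pl Γ W (by
    intro s t s' t' h h' h1 h2 h3 h4
    have hne : ρ s t h ≠ ρ s' t' h' := by
      intro he
      rcases hW3 s t h with ⟨e1, e2⟩ | ⟨e1, e2⟩ <;> rcases hW3 s' t' h' with ⟨e3, e4⟩ | ⟨e3, e4⟩
      · exact h1 (by rw [e1, e3, he])
      · exact h2 (by rw [e1, e4, he])
      · exact h3 (by rw [e2, e3, he])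
      · exact h1 (by rw [e1, e3, he])
    refine ⟨?_, ?_⟩
    · intro v hv hv'
      have a1 := hW1 s t h v hv
      have a2 := hW1 s' t' h' v hv'
      by_cases hvU : v ∈ D.U
      · have b1 : v = s ∨ v = t := by
          have : v = D.ha (ρ s t h) ∨ v = D.hb (ρ s t h) := by
            by_contra hcon
            push Not at hcon
            exact hD.wq_U _ v a1 hcon.1 hcon.2 hvU
          rcases hW3 s t h with ⟨e1, e2⟩ | ⟨e1, e2⟩
          · rcases this with h5 | h5
            · exact Or.inl (h5.trans e1.symm)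
            · exact Or.inr (h5.trans e2.symm)
          · rcases this with h5 | h5
            · exact Or.inr (h5.trans e2.symm)
            · exact Or.inl (h5.trans e1.symm)
        have b2 : v = s' ∨ v = t' := by
          have : v = D.ha (ρ s' t' h') ∨ v = D.hb (ρ s' t' h') := by
            by_contra hcon
            push Not at hcon
            exact hD.wq_U _ v a2 hcon.1 hcon.2 hvU
          rcases hW3 s' t' h' with ⟨e1, e2⟩ | ⟨e1, e2⟩
          · rcases this with h5 | h5
            · exact Or.inl (h5.trans e1.symm)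
            · exact Or.inr (h5.trans e2.symm)
          · rcases this with h5 | h5
            · exact Or.inr (h5.trans e2.symm)
            · exact Or.inl (h5.trans e1.symm)
        rcases b1 with b1 | b1 <;> rcases b2 with b2 | b2
        · exact h1 (b1.symm.trans b2)
        · exact h2 (b1.symm.trans b2)
        · exact h3 (b1.symm.trans b2)
        · exact h4 (b1.symm.trans b2)
      · exact hne (hD.wq_disj _ _ v a1 a2 hvU)
    · intro f hf f' hf' hx
      exact hI' _ (hρI s t h) _ (hρI s' t' h') hne ⟨f, hW2 s t h f hf, f', hW2 s' t' h' f' hf', hx⟩)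
  have hfew := few_edges Γ D.U (by
    rintro s t ⟨q, hq, h | h⟩
    · rw [h.1, h.2]
      exact ⟨hD.ha_U q, hD.hb_U q⟩
    · rw [h.1, h.2]
      exact ⟨hD.hb_U q, hD.ha_U q⟩) hpl.1
  have hIcard : I.ncard ≤ Γ.edgeSet.ncard := by
    refine Set.ncard_le_ncard_of_injOn (fun q => s(D.ha q, D.hb q)) ?_ ?_ (Set.toFinite _)
    · intro q hq
      exact ⟨q, hq, Or.inl ⟨rfl, rfl⟩⟩
    · intro a ha b hb hab
      by_contra hne
      obtain ⟨h1, h2⟩ := hN.hh a b hne
      rcases Sym2.eq_iff.1 hab with h | h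
      · exact h1 h
      · exact h2 h
  have hU1 : 1 ≤ D.U.ncard := (Set.ncard_pos (Set.toFinite _)).2 hU
  have hL2 : 2 ≤ D.L := hD.r_pos.trans hD.r_le
  have e1 : (D.L + 1) * I.ncard ≤ (D.L + 1) * (4 * D.U.ncard) :=
    Nat.mul_le_mul_left _ (hIcard.trans hfew)
  have e2 : 2 * D.U.ncard ≤ D.L * D.U.ncard := Nat.mul_le_mul_right _ hL2
  calc Nat.card Q ≤ (D.L + 1) * (4 * D.U.ncard) + 1 := by omega
    _ = 4 * (D.L * D.U.ncard) + 4 * D.U.ncard + 1 := by ring
    _ ≤ 9 * (D.L * D.U.ncard) := by omega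
    _ = 9 * D.L * D.U.ncard := by ring

end Pool.Agent.Helper70.HH
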